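import Pool.Agent.Helper17.SL.GoalsZE

/-!
# Packet SL ZF: linear independence of exponential polynomials on an abelian group
-/

namespace Pool.Agent.Helper17.SL.PkZF

open MvPolynomial Module

universe u v x y

section

variable {K : Type u} [Field K] {G : Type v} [AddCommGroup G]

/-- translation by `b` on the functions on `G` -/
def tr (b : G) : End K (G → K) where
  toFun f := fun a ↦ f (a + b)
  map_add' f g := rfl
  map_smul' c f := rfl

omit [AddCommGroup G] in
theorem tr_apply [AddCommGroup G] (b : G) (f : G → K) (a : G) :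
    (tr b : End K (G → K)) f a = f (a + b) := rfl

theorem tr_comm (b c : G) : Commute (tr b : End K (G → K)) (tr c) := by
  ext f a
  change f (a + b + c) = f (a + c + b)
  rw [add_right_comm]

theorem iter_mul (b : G) (μ : K) (X : G → K) (hX : ∀ a b, X (a + b) = X a + X b) (k : ℕ) :
    ∀ p : G → K, (((tr b : End K (G → K)) - μ • (1 : End K (G → K))) ^ k) p = 0 →
      (((tr b : End K (G → K)) - μ • (1 : End K (G → K))) ^ (k + 1)) (X * p) = 0 := by
  set D : End K (G → K) := (tr b : End K (G → K)) - μ • (1 : End K (G → K)) with hD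
  have hDX : ∀ p : G → K, D (X * p) = X * D p + X b • (tr b : End K (G → K)) p := by
    intro p
    ext a
    simp only [hD, LinearMap.sub_apply, LinearMap.smul_apply, End.one_apply, Pi.sub_apply,
      Pi.add_apply, Pi.smul_apply, Pi.mul_apply, tr_apply, smul_eq_mul, hX]
    ring
  have hcomm : Commute (D) (tr b : End K (G → K)) := by
    rw [hD]
    exact ((Commute.refl _).sub_left ((Commute.one_left _).smul_left μ))
  induction k with
  | zero =>
    intro p hp
    have hp0 : p = 0 := by simpa using hp
    subst hp0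
    simp
  | succ k ih =>
    intro p hp
    rw [pow_succ, End.mul_apply, hDX, map_add, map_smul]
    have h1 : (D ^ k) (D p) = 0 := by rw [← End.mul_apply, ← pow_succ]; exact hp
    rw [ih _ h1, zero_add]
    have h2 : (D ^ (k + 1)) ((tr b : End K (G → K)) p)
        = (tr b : End K (G → K)) ((D ^ (k + 1)) p) := by
      rw [← End.mul_apply, ← End.mul_apply, (hcomm.pow_left (k + 1)).eq]
    rw [h2, hp, map_zero, smul_zero]

theorem mul_mem (b : G) (μ : K) (X : G → K) (hX : ∀ a b, X (a + b) = X a + X b) (p : G → K)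
    (hp : p ∈ (tr b : End K (G → K)).maxGenEigenspace μ) :
    X * p ∈ (tr b : End K (G → K)).maxGenEigenspace μ := by
  rw [End.mem_maxGenEigenspace] at hp ⊢
  obtain ⟨k, hk⟩ := hp
  exact ⟨k + 1, iter_mul b μ X hX k p hk⟩

theorem pow_mul_mem (b : G) (μ : K) (X : G → K) (hX : ∀ a b, X (a + b) = X a + X b) (p : G → K)
    (hp : p ∈ (tr b : End K (G → K)).maxGenEigenspace μ) (n : ℕ) :
    X ^ n * p ∈ (tr b : End K (G → K)).maxGenEigenspace μ := by
  induction n with
  | zero => simpa using hp
  | succ n ih =>
    rw [pow_succ', mul_assoc]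
    exact mul_mem b μ X hX _ ih

theorem prod_mul_mem {I : Type x} (b : G) (μ : K) (X : I → G → K)
    (hX : ∀ i a b, X i (a + b) = X i a + X i b) (p : G → K)
    (hp : p ∈ (tr b : End K (G → K)).maxGenEigenspace μ) (t : I → ℕ) (s : Finset I) :
    (∏ i ∈ s, X i ^ t i) * p ∈ (tr b : End K (G → K)).maxGenEigenspace μ := by
  classical
  induction s using Finset.induction_on with
  | empty => simpa using hp
  | insert i s hi ih =>
    rw [Finset.prod_insert hi, mul_assoc]
    exact pow_mul_mem b μ (X i) (hX i) _ ih _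

/-- a character is an eigenvector -/
theorem char_mem (b : G) (χ : G → K) (hχ : ∀ a b, χ (a + b) = χ a * χ b) :
    χ ∈ (tr b : End K (G → K)).maxGenEigenspace (χ b) := by
  rw [End.mem_maxGenEigenspace]
  refine ⟨1, ?_⟩
  rw [pow_one]
  ext a
  simp only [LinearMap.sub_apply, LinearMap.smul_apply, End.one_apply, Pi.sub_apply,
    Pi.smul_apply, tr_apply, smul_eq_mul, hχ, Pi.zero_apply]
  ring

omit [AddCommGroup G] in
theorem eval_aeval' {I : Type*} (g : I → MvPolynomial G K) (z : G → K) (P : MvPolynomial I K) :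
    eval z (aeval g P) = eval (fun i ↦ eval z (g i)) P := by
  induction P using MvPolynomial.induction_on with
  | C a => simp
  | add p q hp hq => rw [map_add, map_add, map_add, hp, hq]
  | mul_X p i hp => rw [map_mul, map_mul, map_mul, hp, aeval_X, eval_X]

/-- a polynomial vanishing at the points `X(a)` is zero -/
theorem poly_zero [CharZero K] {I : Type x} [Fintype I] (X : I → G → K)
    (hX : ∀ i a b, X i (a + b) = X i a + X i b) (hli : LinearIndependent K X)
    (P : MvPolynomial I K) (hP : ∀ a, eval (fun i ↦ X i a) P = 0) : P = 0 := by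
  classical
  have hspan : Submodule.span K (Set.range (fun (a : G) (i : I) ↦ X i a)) = ⊤ := by
    by_contra hne
    obtain ⟨f, hf0, hf⟩ := Submodule.exists_le_ker_of_lt_top _ (lt_top_iff_ne_top.2 hne)
    apply hf0
    have hc : ∀ v : I → K, f v = ∑ i, v i * f (Pi.single i 1) := by
      intro v
      conv_lhs => rw [pi_eq_sum_univ' v]
      rw [map_sum]
      refine Finset.sum_congr rfl fun i _ ↦ ?_
      rw [map_smul, smul_eq_mul]
    have hz : ∑ i, f (Pi.single i 1) • X i = 0 := by
      ext a
      have : f (fun i ↦ X i a) = 0 := hf (Submodule.subset_span ⟨a, rfl⟩)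
      rw [hc] at this
      simpa [Finset.sum_apply, mul_comm] using this
    have h0 := Fintype.linearIndependent_iff.1 hli _ hz
    ext i
    simpa using h0 i
  have hXz : ∀ i, X i 0 = 0 := by
    intro i
    have := hX i 0 0
    rw [add_zero] at this
    simpa using this
  apply MvPolynomial.funext
  intro v
  rw [map_zero]
  have hv : v ∈ Submodule.span K (Set.range (fun (a : G) (i : I) ↦ X i a)) := by
    rw [hspan]; trivial
  obtain ⟨c, hc⟩ := Finsupp.mem_span_range_iff_exists_finsupp.1 hv
  set R : MvPolynomial G K := aeval (fun i ↦ ∑ a ∈ c.support, C (X i a) * MvPolynomial.X a) P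
    with hR
  have hev : ∀ z : G → K, eval z R = eval (fun i ↦ ∑ a ∈ c.support, X i a * z a) P := by
    intro z
    rw [hR, eval_aeval']
    simp only [map_sum, map_mul, eval_C, eval_X]
  have hR0 : R = 0 := by
    refine MvPolynomial.funext_set (fun _ ↦ Set.range (fun n : ℤ ↦ (n : K))) (fun _ ↦ ?_) ?_
    · exact Set.infinite_range_of_injective Int.cast_injective
    · intro z hz
      rw [map_zero, hev]
      have hz' : ∀ a, ∃ n : ℤ, (n : K) = z a := fun a ↦ hz a (Set.mem_univ a)
      choose n hn using hz'
      have := hP (∑ a ∈ c.support, n a • a)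
      have hsum : ∀ i, X i (∑ a ∈ c.support, n a • a) = ∑ a ∈ c.support, X i a * z a := by
        intro i
        let Xi : G →+ K := ⟨⟨X i, hXz i⟩, hX i⟩
        have : Xi (∑ a ∈ c.support, n a • a) = ∑ a ∈ c.support, Xi a * z a := by
          rw [map_sum]
          refine Finset.sum_congr rfl fun a _ ↦ ?_
          rw [map_zsmul, zsmul_eq_mul, hn, mul_comm]
        exact this
      simpa only [hsum] using this
  have := hev c
  rw [hR0, map_zero] at this
  rw [this]
  congr 2
  rw [← hc]
  ext i
  rw [Finsupp.sum, Finset.sum_apply]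
  refine Finset.sum_congr rfl fun a _ ↦ ?_
  rw [Pi.smul_apply, smul_eq_mul, mul_comm]

end

theorem thm : S_ZF.{u, v, x, y} := by
  intro K _ _ G _ I J _ _ X Y hX hY hY0 hli hmul
  classical
  -- the characters
  set χ : (J →₀ ℕ) → G → K := fun s a ↦ ∏ j, Y j a ^ s j with hχ
  have hχmul : ∀ s a b, χ s (a + b) = χ s a * χ s b := by
    intro s a b
    simp only [hχ, hY, mul_pow, Finset.prod_mul_distrib]
  have hχ0 : ∀ s a, χ s a ≠ 0 := fun s a ↦ Finset.prod_ne_zero_iff.2 fun j _ ↦
    pow_ne_zero _ (hY0 j a)
  have hinj : Function.Injective χ := by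
    intro s s' hs
    have h1 := hmul (fun j ↦ (s j : ℤ) - (s' j : ℤ)) (by
      intro a
      have h2 : χ s a = χ s' a := congrFun hs a
      have h3 : ∀ j, Y j a ^ ((s j : ℤ) - (s' j : ℤ)) = Y j a ^ s j / Y j a ^ s' j := by
        intro j
        rw [zpow_sub₀ (hY0 j a), zpow_natCast, zpow_natCast]
      simp only [h3, Finset.prod_div_distrib]
      exact (div_eq_one_iff_eq (hχ0 s' a)).2 h2)
    ext j
    have := congrFun h1 j
    simp only [Pi.zero_apply] at this
    omega
  -- the functions
  set F : (Σ _ : (J →₀ ℕ), (I →₀ ℕ)) → G → K := fun q a ↦ (∏ i, X i a ^ q.2 i) * χ q.1 a with hF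
  have hFE : ∀ s (t : I →₀ ℕ) , F ⟨s, t⟩ ∈
      ⨅ b : G, (tr b : End K (G → K)).maxGenEigenspace (χ s b) := by
    intro s t
    rw [Submodule.mem_iInf]
    intro b
    have h1 := prod_mul_mem b (χ s b) X hX (χ s) (char_mem b (χ s) (hχmul s)) t Finset.univ
    have h2 : F ⟨s, t⟩ = (∏ i, X i ^ t i) * χ s := by
      ext a
      simp [hF, Finset.prod_apply]
    rw [h2]
    exact h1
  have hind : iSupIndep fun s : (J →₀ ℕ) ↦
      ⨅ b : G, (tr b : End K (G → K)).maxGenEigenspace (χ s b) := by
    have h1 := End.independent_iInf_maxGenEigenspace_of_forall_mapsTo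
      (fun b : G ↦ (tr b : End K (G → K)))
      (fun i j φ ↦ End.mapsTo_maxGenEigenspace_of_comm (tr_comm j i) φ)
    exact h1.comp hinj
  have hFli : LinearIndependent K F := by
    have := linearIndependent_iUnion_finite (R := K) (η := (J →₀ ℕ)) (ιs := fun _ ↦ (I →₀ ℕ))
      (f := fun s t ↦ F ⟨s, t⟩) ?_ ?_
    · exact this
    · intro s
      rw [linearIndependent_iff]
      intro l hl
      have hP : (AddMonoidAlgebra.ofCoeff l : MvPolynomial I K) = 0 := by
        apply poly_zero X hX hli
        intro a
        have h1 := congrFun hl a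
        rw [Finsupp.linearCombination_apply, Finsupp.sum, Finset.sum_apply] at h1
        have h2 : (∑ t ∈ l.support, l t * ∏ i, X i a ^ t i) * χ s a = 0 := by
          rw [Finset.sum_mul]
          refine Eq.trans ?_ h1
          refine Finset.sum_congr rfl fun t _ ↦ ?_
          simp only [hF, Pi.smul_apply, smul_eq_mul]
          ring
        have h3 := (mul_eq_zero.1 h2).resolve_right (hχ0 s a)
        rw [eval_eq']
        exact h3
      exact congrArg AddMonoidAlgebra.coeff hP
    · intro s T _ hs
      have h1 := hind s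
      refine (h1.mono ?_ ?_)
      · rw [Submodule.span_le]
        rintro _ ⟨t, rfl⟩
        exact hFE s t
      · refine iSup₂_le fun s' hs' ↦ ?_
        have hne : s' ≠ s := fun h ↦ hs (h ▸ hs')
        refine le_trans ?_ (le_iSup₂ (f := fun s' (_ : s' ≠ s) ↦
          ⨅ b : G, (tr b : End K (G → K)).maxGenEigenspace (χ s' b)) s' hne)
        rw [Submodule.span_le]
        rintro _ ⟨t, rfl⟩
        exact hFE s' t
  -- transport
  let e : (I ⊕ J →₀ ℕ) → (Σ _ : (J →₀ ℕ), (I →₀ ℕ)) := fun d ↦
    ⟨(Finsupp.sumFinsuppEquivProdFinsupp d).2, (Finsupp.sumFinsuppEquivProdFinsupp d).1⟩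
  have he : Function.Injective e := by
    intro d d' h
    simp only [e, Sigma.mk.injEq, heq_eq_eq] at h
    exact Finsupp.sumFinsuppEquivProdFinsupp.injective (Prod.ext h.2 h.1)
  have := hFli.comp e he
  convert! this using 1
  
end Pool.Agent.Helper17.SL.PkZF
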