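import Pool.Agent.Helper17.SL.GoalsA

/-!
# Packet SL GA6: a criterion for CM fields
-/

namespace Pool.Agent.Helper17.SL.PkGA6

open NumberField ComplexEmbedding InfinitePlace Algebra

universe u v

/-- a totally complex number field with a unique complex conjugation is CM -/
theorem of_conj (K : Type u) [Field K] [NumberField K] [IsTotallyComplex K] (σ : K ≃ₐ[ℚ] K)
    (hσ : ∀ φ : K →+* ℂ, ComplexEmbedding.IsConj φ σ) : IsCMField K := by
  let φ : K →+* ℂ := Classical.choice (inferInstance : Nonempty _)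
  have hσ' : Nat.card (Subgroup.zpowers σ) = 2 := by
    rw [Nat.card_zpowers, orderOf_isConj_two_of_ne_one (hσ φ)]
    exact (isConj_ne_one_iff (hσ φ)).mpr <| IsTotallyComplex.complexEmbedding_not_isReal φ
  have : Finite (Subgroup.zpowers σ) := Nat.finite_of_card_ne_zero (by positivity)
  let L : Subfield K := FixedPoints.subfield (Subgroup.zpowers σ) K
  have : IsTotallyReal L := ⟨fun w ↦ by
    obtain ⟨W, rfl⟩ := w.comap_surjective (K := K)
    dsimp only
    rw [← mk_embedding W, comap_mk, isReal_mk_iff, ComplexEmbedding.isReal_iff]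
    ext x
    have h1 := hσ W.embedding
    have h2 := RingHom.congr_fun h1 (x : K)
    have h3 : σ (x : K) = x := x.2 ⟨σ, Subgroup.mem_zpowers σ⟩
    change ComplexEmbedding.conjugate W.embedding (x : K) = W.embedding x
    rw [h2]
    change W.embedding (σ (x : K)) = _
    rw [h3]⟩
  have : IsQuadraticExtension L K := ⟨by
    have := Fintype.ofFinite (Subgroup.zpowers σ)
    rw [FixedPoints.finrank_eq_card (Subgroup.zpowers σ) K, ← Nat.card_eq_fintype_card, hσ']⟩
  exact IsCMField.ofCMExtension L K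

theorem thm : S_GA6.{u, v} := by
  intro H _ _ _ Ω _ _ _ _ σ θ h
  -- an embedding of `Ω`
  obtain ⟨ι₀⟩ : Nonempty (Ω →+* ℂ) :=
    ⟨(IsAlgClosed.lift : Ω →ₐ[ℚ] ℂ).toRingHom⟩
  have : IsAlgClosure ℚ Ω := ⟨inferInstance, inferInstance⟩
  have : IsGalois ℚ Ω := inferInstance
  -- the image of `θ`
  let F₀ : IntermediateField ℚ Ω := (σ.toRatAlgHom).fieldRange
  have hmem : ∀ x : H, ∃ y : H, σ y = θ x := by
    intro x
    have h1 : θ x ∈ IntermediateField.fixedField F₀.fixingSubgroup := by
      rintro ⟨g, hg⟩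
      change g (θ x) = θ x
      have hgσ : ∀ z : H, g (σ z) = σ z := fun z ↦ hg ⟨σ z, z, rfl⟩
      have h2 := RingHom.congr_fun (h (ι₀.comp (g : Ω →+* Ω))) x
      have h3 := RingHom.congr_fun (h ι₀) x
      apply ι₀.injective
      have h4 : ComplexEmbedding.conjugate ((ι₀.comp (g : Ω →+* Ω)).comp σ) x
          = ComplexEmbedding.conjugate (ι₀.comp σ) x := by
        simp [ComplexEmbedding.conjugate_coe_eq, hgσ]
      rw [h4, h3] at h2
      exact h2.symm
    rw [InfiniteGalois.fixedField_fixingSubgroup] at h1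
    obtain ⟨y, hy⟩ := h1
    exact ⟨y, hy⟩
  choose c hc using hmem
  let c' : H →+* H :=
    { toFun := c
      map_one' := σ.injective (by rw [hc, map_one, map_one])
      map_zero' := σ.injective (by rw [hc, map_zero, map_zero])
      map_mul' := fun x y ↦ σ.injective (by rw [hc, map_mul, map_mul, hc, hc])
      map_add' := fun x y ↦ σ.injective (by rw [hc, map_add, map_add, hc, hc]) }
  let e : H ≃ₐ[ℚ] H := AlgEquiv.ofBijective c'.toRatAlgHom (Algebra.IsAlgebraic.algHom_bijective _)
  refine of_conj H e fun ρ ↦ ?_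
  -- extend `ρ`
  let _ : Algebra H Ω := σ.toAlgebra
  let _ : Algebra H ℂ := ρ.toAlgebra
  have : Algebra.IsAlgebraic H Ω := Algebra.IsAlgebraic.tower_top (K := ℚ) H
  let ι : Ω →ₐ[H] ℂ := IsAlgClosed.lift
  have hι : (ι : Ω →+* ℂ).comp σ = ρ := by
    ext x
    exact ι.commutes x
  have h1 := h (ι : Ω →+* ℂ)
  rw [hι] at h1
  change ComplexEmbedding.conjugate ρ = _
  rw [h1]
  ext x
  have h2 : (ι : Ω →+* ℂ) (σ (c x)) = ρ (c x) := RingHom.congr_fun hι (c x)
  rw [hc] at h2
  exact h2

end Pool.Agent.Helper17.SL.PkGA6
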